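import Pool.Agent.Lib.MP_eeb174_ag.RR

open Filter Set WithZero Module Pool.Agent.Lib.MP_eeb174_ag

noncomputable section

namespace Pool.Agent.Lib.CL88

lemma stdSmooth_poly : Algebra.IsStandardSmoothOfRelativeDimension 1 ℂ (Polynomial ℂ) := by
  let b := (Basis.singleton Unit (Polynomial ℂ)).map (KaehlerDifferential.polynomialEquiv ℂ).symm
  have : Algebra.IsStandardSmooth ℂ (Polynomial ℂ) :=
    Algebra.IsStandardSmooth.of_basis_kaehlerDifferential b (by
      rintro _ ⟨i, rfl⟩
      exact ⟨Polynomial.X, by simp [b]⟩)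
  rw [Algebra.IsStandardSmoothOfRelativeDimension.iff_of_isStandardSmooth, rank_eq_card_basis b]
  simp

variable {K : Type} [Field K] [Algebra ℂ K] [IsFF K] {r : ℕ}

/-- The functions of a chart that vanish at a place. -/
def plId {U : Set (Place K)} {x : Place K} (hx : x ∈ U) : Ideal (chartRing U) where
  carrier := {a | x.val a < 1}
  add_mem' := fun ha hb => x.val.map_add_lt ha hb
  zero_mem' := by simp
  smul_mem' := fun c a ha => by
    change x.val ((c : K) * a) < 1
    rw [map_mul]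
    exact (mul_le_of_le_one_left' (x.mem_iff.1 (c.2 x hx))).trans_lt ha

lemma smooth_at {U : Set (Place K)} (hU : Good U) [Algebra.FiniteType ℂ (chartRing U)]
    {x : Place K} (hx : x ∈ U) : ∃ f : chartRing U, f - 1 ∈ plId hx ∧
      Algebra.IsStandardSmoothOfRelativeDimension 1 ℂ (Localization.Away f) := by
  have hv : ∀ s ∈ chartRing U, s ≠ 0 → s⁻¹ ∈ x.O → x.val s = 1 := fun s h1 h2 h3 =>
    le_antisymm (x.mem_iff.1 (h1 x hx)) ((x.inv_mem_iff h2).1 h3)
  have hu : x.val x.unif < 1 := by rw [x.val_lt_one_iff, x.val_unif]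
  obtain ⟨s, h1, h2, h3, h4⟩ := hU.den x hx x.unif (x.mem_iff.2 hu.le)
  let t : chartRing U := ⟨s * x.unif, h4⟩
  have ht : x.val t = exp (-1) := by
    change x.val (s * x.unif) = _
    rw [map_mul, hv s h1 h2 h3, one_mul, x.val_unif]
  have ht0 : (t : K) ≠ 0 := mul_ne_zero h2 x.unif_ne_zero
  have htm : t ∈ plId hx := x.val_lt_one_iff.2 ht.le
  have htr : Transcendental ℂ (t : K) := transc_of_not_const fun c hc => ht0 <| by
    have h5 : x.val (t : K) < 1 := htm
    rw [hc] at h5 ⊢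
    rw [x.const_eq_zero h5, map_zero]
  let _ : Algebra (Polynomial ℂ) (chartRing U) := (Polynomial.aeval t).toRingHom.toAlgebra
  have : IsScalarTower ℂ (Polynomial ℂ) (chartRing U) :=
    .of_algebraMap_eq fun z => ((Polynomial.aeval t).commutes z).symm
  have : Algebra.FiniteType (Polynomial ℂ) (chartRing U) := .of_restrictScalars_finiteType ℂ _ _
  have hinj : Function.Injective (algebraMap (Polynomial ℂ) (chartRing U)) :=
    transcendental_iff_injective.1 ((transcendental_algebraMap_iff Subtype.val_injective).1 htr)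
  let d := KaehlerDifferential.D (Polynomial ℂ) (chartRing U)
  have hc : ∀ c : ℂ, d (algebraMap ℂ _ c) = 0 := fun c => by
    rw [IsScalarTower.algebraMap_apply ℂ (Polynomial ℂ)]; exact d.map_algebraMap _
  have hdt : d t = 0 := by
    have : t = algebraMap (Polynomial ℂ) _ Polynomial.X := (Polynomial.aeval_X t).symm
    rw [this]; exact d.map_algebraMap _
  have hres : ∀ a : chartRing U, ∃ c : ℂ, a - algebraMap ℂ _ c ∈ plId hx :=
    fun a => x.exists_res (a.2 x hx)
  have key : ∀ a, d a ∈ plId hx • (⊤ : Submodule (chartRing U) _) := fun a => by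
    obtain ⟨c, h5⟩ := hres a
    have h6 : ((a - algebraMap ℂ _ c : chartRing U) : K) / t ∈ x.O := by
      rw [x.mem_iff, map_div₀, ht, div_le_one₀ exp_pos]
      exact x.val_lt_one_iff.1 h5
    obtain ⟨s', k1, k2, k3, k4⟩ := hU.den x hx _ h6
    obtain ⟨c', h7⟩ := hres ⟨s', k1⟩
    have h8 : c' ≠ 0 := by
      rintro rfl
      have : x.val s' < 1 := by simpa [plId] using h7
      exact this.ne (hv s' k1 k2 k3)
    have h9 : (⟨s', k1⟩ : chartRing U) * (a - algebraMap ℂ _ c) = t * ⟨_, k4⟩ :=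
      Subtype.ext (by simp only [MulMemClass.coe_mul]; field_simp)
    have h10 := congrArg d h9
    rw [d.leibniz, d.leibniz, map_sub, hc, hdt, sub_zero, smul_zero, add_zero] at h10
    have h11 : d a = algebraMap ℂ (chartRing U) c'⁻¹ • (t • d ⟨_, k4⟩ -
        (a - algebraMap ℂ _ c) • d ⟨s', k1⟩ - (⟨s', k1⟩ - algebraMap ℂ (chartRing U) c') • d a) := by
      rw [← h10, add_sub_cancel_right, sub_smul, sub_sub_cancel, smul_smul, ← map_mul,
        inv_mul_cancel₀ h8, map_one, one_smul]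
    rw [h11]
    exact Submodule.smul_mem _ _ (sub_mem (sub_mem (Submodule.smul_mem_smul htm trivial)
      (Submodule.smul_mem_smul h5 trivial)) (Submodule.smul_mem_smul h7 trivial))
  obtain ⟨f, hf, h5⟩ := Submodule.exists_sub_one_mem_and_smul_eq_zero_of_fg_of_le_smul (plId hx)
    (⊤ : Submodule (chartRing U) Ω[chartRing U⁄Polynomial ℂ]) Module.Finite.fg_top (by
      rw [← KaehlerDifferential.span_range_derivation, Submodule.span_le,
        KaehlerDifferential.span_range_derivation]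
      rintro _ ⟨a, rfl⟩
      exact key a)
  refine ⟨f, hf, ?_⟩
  have : Algebra.FormallyUnramified (Polynomial ℂ) (Localization.Away f) := by
    rw [← Algebra.basicOpen_subset_unramifiedLocus_iff, Algebra.unramifiedLocus_eq_compl_support]
    exact fun q hq => Module.notMem_support_iff'.2 fun m => ⟨f, hq, h5 m trivial⟩
  have : Module.IsTorsionFree (Polynomial ℂ) (chartRing U) :=
    Module.isTorsionFree_iff_algebraMap_injective.2 hinj
  have : Module.Flat (Polynomial ℂ) (Localization.Away f) := .trans _ (chartRing U) _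
  have : Algebra.FinitePresentation (Polynomial ℂ) (chartRing U) :=
    Algebra.FinitePresentation.of_finiteType.1 inferInstance
  have : Algebra.FinitePresentation (Polynomial ℂ) (Localization.Away f) :=
    .trans _ (chartRing U) _
  have := Algebra.Etale.iff_isStandardSmoothOfRelativeDimension_zero.1
    (Algebra.Etale.of_formallyUnramified_of_flat (R := Polynomial ℂ) (S := Localization.Away f))
  have := stdSmooth_poly
  exact Algebra.IsStandardSmoothOfRelativeDimension.trans 1 0 ℂ (Polynomial ℂ) _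

lemma locally_smooth {U : Set (Place K)} (hU : Good U) [Algebra.FiniteType ℂ (chartRing U)] :
    RingHom.Locally (RingHom.IsStandardSmoothOfRelativeDimension 1)
      (algebraMap ℂ (chartRing U)) := by
  refine ⟨{f | Algebra.IsStandardSmoothOfRelativeDimension 1 ℂ (Localization.Away f)}, ?_,
    fun f hf => ?_⟩
  · by_contra h
    have h1 : ∀ {x : Place K} (hx : x ∈ U) {f : chartRing U}, f - 1 ∈ plId hx →
        ¬ x.val (f : K) < 1 := fun {x} hx f h1 h2 => by
      have := (plId hx).sub_mem (show f ∈ plId hx from h2) h1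
      rw [sub_sub_cancel] at this
      exact lt_irrefl _ ((map_one x.val).symm.trans_lt this)
    obtain ⟨x₀, hx₀⟩ := hU.ne
    obtain ⟨f₀, h2, h3⟩ := smooth_at hU hx₀
    obtain ⟨x, h4, h5⟩ := exists_place_of_ideal _ _ h (Ideal.subset_span h3) (by
      rintro rfl
      exact h1 hx₀ h2 (by simp))
    obtain ⟨f, h6, h7⟩ := smooth_at hU (hU.mem x h4)
    exact h1 _ h6 (x.mem_nonunits_iff.1 (h5 f (Ideal.subset_span h7)))
  · rw [← IsScalarTower.algebraMap_eq]
    exact (RingHom.isStandardSmoothOfRelativeDimension_algebraMap 1).2 hf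

/-- Strong approximation for lattices. -/
lemma approx_lat {U : Set (Place K)} (hU : Good U) {V : Lat K r} (hV : V.gen = ⊤)
    (a : Place K → Fin r → K) (ha : {x | a x ∉ V.S x}.Finite) : ∃ w, ∀ x ∈ U, w - a x ∈ V.S x := by
  classical
  have h1 : ∀ x : Place K, ∃ w, x ∈ U → w - a x ∈ V.S x ∧ ∀ y ∈ U, y ≠ x → w ∈ V.S y := fun x => by
    by_cases hx : x ∈ U
    · obtain ⟨T, M, hT, h⟩ := Lat.exists_bound_vec (L := V) (w := a x) (hV ▸ trivial)
      obtain ⟨s, h2, h3, h4⟩ := hU.approx hx hT M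
      refine ⟨s • a x, fun _ => ⟨?_, fun y hy hyx =>
        h y s (y.mem_iff.1 (h2 y hy)) fun hyT => h4 y hyT hy hyx⟩⟩
      have := h x (s - 1) (h3.trans (by rw [← exp_zero, exp_le_exp]; omega)) fun _ => h3
      rwa [sub_smul, one_smul] at this
    · exact ⟨0, fun h => absurd h hx⟩
  choose w hw using h1
  refine ⟨∑ x ∈ ha.toFinset.filter (· ∈ U), w x, fun y hy => ?_⟩
  by_cases h : a y ∈ V.S y
  · refine sub_mem (sum_mem fun x hx => ?_) h
    rw [Finset.mem_filter, ha.mem_toFinset] at hx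
    exact (hw x hx.2).2 y hy (by rintro rfl; exact hx.1 h)
  · rw [← Finset.add_sum_erase _ _ (Finset.mem_filter.2 ⟨ha.mem_toFinset.2 h, hy⟩),
      add_sub_right_comm]
    refine add_mem (hw y hy).1 (sum_mem fun x hx => ?_)
    rw [Finset.mem_erase, Finset.mem_filter] at hx
    exact (hw x hx.2.2).2 y hy hx.1.symm

/-- A basis of a stalk is a basis of almost all stalks. -/
lemma exists_frame {V : Lat K r} (hV : V.gen = ⊤) (x : Place K) :
    ∃ b : Fin r → Fin r → K, LinearIndependent K b ∧ Submodule.span K (range b) = ⊤ ∧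
      V.S x = Submodule.span x.O (range b) ∧
      {y : Place K | V.S y ≠ Submodule.span y.O (range b)}.Finite := by
  obtain ⟨m, b, h1, h2⟩ := exists_basis_fg x.O K (V.S x) (V.fg_S x)
  have h3 : Submodule.span K (range b) = ⊤ := by
    rw [← hV, ← V.span_S x, ← h2, Submodule.span_span_of_tower]
  obtain rfl : m = r := by
    have := finrank_span_eq_card h1
    rw [h3] at this
    simpa using this.symm
  refine ⟨b, h1, h3, h2.symm, (V.std_S.and (eventually_span_std b)).mono fun y hy => ?_⟩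
  ext w
  rw [hy.1, hy.2, hV, h3]

lemma decomp (a : ℤ) (f : RatFunc ℂ) : ∃ p ∈ Pk (-a - 2), ∃ q ∈ A0,
    vI (f - RatFunc.X ^ (a + 1) * p - q) ≤ exp a := by
  obtain ⟨q, hq, h1⟩ := exists_poly_approx f
  rw [lt_one_iff_le_exp] at h1
  by_cases ha : -1 ≤ a
  · exact ⟨0, zero_mem _, q, hq, by simpa using h1.trans (exp_le_exp.2 ha)⟩
  obtain ⟨p, hp, h2⟩ := exists_poly_approx (RatFunc.X ^ (-(a + 1)) * (f - q))
  rw [lt_one_iff_le_exp] at h2
  refine ⟨p, ⟨hp, ?_⟩, q, hq, ?_⟩
  · rw [← sub_sub_cancel (RatFunc.X ^ (-(a + 1)) * (f - q)) p]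
    exact vI.map_sub_le (vI_mul_zpow_le.2 (h1.trans (exp_le_exp.2 (by omega))))
      (h2.trans (exp_le_exp.2 (by omega)))
  · have : f - RatFunc.X ^ (a + 1) * p - q =
        RatFunc.X ^ (a + 1) * (RatFunc.X ^ (-(a + 1)) * (f - q) - p) := by
      rw [mul_sub, ← mul_assoc, ← zpow_add₀ RatFunc.X_ne_zero, add_neg_cancel, zpow_zero]
      ring
    rw [this]
    exact vI_mul_zpow_le.2 (h2.trans (exp_le_exp.2 (by omega)))

lemma decomp_uniq {a : ℤ} {p q : RatFunc ℂ} (hp : p ∈ Pk (-a - 2)) (hq : q ∈ A0)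
    (h : vI (RatFunc.X ^ (a + 1) * p - q) ≤ exp a) : p = 0 := by
  by_contra h0
  have h1 : exp 0 ≤ exp (-a - 2) := (one_le_vI hp.1 h0).trans hp.2
  obtain ⟨k, hk⟩ := Int.eq_ofNat_of_zero_le (a := -(a + 1)) (by rw [exp_le_exp] at h1; omega)
  have h2 : p - RatFunc.X ^ (-(a + 1)) * q =
      RatFunc.X ^ (-(a + 1)) * (RatFunc.X ^ (a + 1) * p - q) := by
    rw [mul_sub, ← mul_assoc, ← zpow_add₀ RatFunc.X_ne_zero, neg_add_cancel, zpow_zero, one_mul]
  have h3 : p = RatFunc.X ^ (-(a + 1)) * q := sub_eq_zero.1 <| by_contra fun h3 => by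
    have h4 := one_le_vI (sub_mem hp.1 (by
      rw [hk, zpow_natCast]
      exact mul_mem (pow_mem (mem_A0.2 ⟨_, RatFunc.algebraMap_X⟩) k) hq)) h3
    rw [h2] at h4
    have h5 : exp 0 ≤ exp (-1 : ℤ) :=
      h4.trans (vI_mul_zpow_le.2 (h.trans (exp_le_exp.2 (by omega))))
    rw [exp_le_exp] at h5
    omega
  have h4 := hp.2
  rw [h3, vI_mul_zpow_le] at h4
  have h5 : exp 0 ≤ exp (-a - 2 - -(a + 1)) :=
    (one_le_vI hq (by rintro rfl; simp [h0] at h3)).trans h4
  rw [exp_le_exp] at h5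
  omega

end Pool.Agent.Lib.CL88

namespace Pool.Agent.Lib.CL88

variable {K : Type} [Field K] [Algebra ℂ K] [Algebra (RatFunc ℂ) K]
  [IsScalarTower ℂ (RatFunc ℂ) K] [FiniteDimensional (RatFunc ℂ) K] {r : ℕ}

/-- The dimension of the first cohomology. -/
lemma h1_dim {V : Lat K r} (hV : V.gen = ⊤) {H : Type} [AddCommGroup H] [Module ℂ H]
    (Θ : (Fin r → K) →ₗ[ℂ] H) (hs : Function.Surjective Θ)
    (hk : ∀ w, Θ w = 0 ↔ ∃ v ∈ V.Γ (U0 K), w - v ∈ V.Γ (Ui K)) :
    (finrank ℂ H : ℤ) = hdim V 0 - chiL V := by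
  obtain ⟨m, e, a, h⟩ := exists_isBG V
  let Φ : ((i : Fin m) → Pk (-a i - 2)) →ₗ[ℂ] (Fin r → K) :=
    { toFun := fun p => ∑ i, ((RatFunc.X : RatFunc ℂ) ^ (a i + 1) * (p i).1) • e i
      map_add' := fun p q => by simp [mul_add, add_smul, Finset.sum_add_distrib]
      map_smul' := fun c p => by simp [Finset.smul_sum] }
  have hΦ : Function.Bijective (Θ ∘ₗ Φ) := by
    refine ⟨(injective_iff_map_eq_zero _).2 fun p hp => ?_, fun y => ?_⟩
    · obtain ⟨v, h1, h2⟩ := (hk _).1 hp
      obtain ⟨q, rfl⟩ := (h.span v).1 (hV ▸ trivial)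
      simp only [Φ, LinearMap.coe_mk, AddHom.coe_mk, ← Finset.sum_sub_distrib, ← sub_smul] at h2
      exact funext fun i => Subtype.ext
        (decomp_uniq (p i).2 ((h.fin q).1 h1 i) ((h.inf _).1 h2 i))
    · obtain ⟨w, rfl⟩ := hs y
      obtain ⟨f, rfl⟩ := (h.span w).1 (hV ▸ trivial)
      choose p hp q hq h1 using fun i => decomp (a i) (f i)
      refine ⟨fun i => ⟨p i, hp i⟩, ?_⟩
      rw [LinearMap.comp_apply, eq_comm, ← sub_eq_zero, ← map_sub, hk]
      refine ⟨_, (h.fin q).2 hq, ?_⟩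
      simp only [Φ, LinearMap.coe_mk, AddHom.coe_mk, ← Finset.sum_sub_distrib, ← sub_smul]
      exact (h.inf _).2 h1
  rw [← (LinearEquiv.ofBijective _ hΦ).finrank_eq, finrank_pi_fintype, h.hdim_eq, h.chiL_eq,
    ← Finset.sum_sub_distrib]
  push_cast
  exact Finset.sum_congr rfl fun i _ => by rw [finrank_Pk]; omega

end Pool.Agent.Lib.CL88
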