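import Pool.Agent.Lib.CL88.Defs

open CategoryTheory TopologicalSpace Opposite Function Abelian Limits

noncomputable section

namespace Pool.Agent.Lib.CL88

section site

variable {D : Type} [SmallCategory D] {J : GrothendieckTopology D}
  [HasSheafify J AddCommGrpCat.{0}] [HasExt.{0} (Sheaf J AddCommGrpCat.{0})]


lemma delta_site {T : D} (hT : IsTerminal T) {S : ShortComplex (Sheaf J AddCommGrpCat.{0})} (hS : S.ShortExact) :
    ∃ δ : S.X₃.obj.obj (op T) →+ S.X₁.H 1,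
      (∀ x, Sheaf.H.map S.f 1 x = 0 → ∃ q, δ q = x) ∧
      (∀ q, δ q = 0 ↔ ∃ b, S.g.hom.app _ b = q) ∧
      ∀ (φ : S ⟶ S) q, δ (φ.τ₃.hom.app _ q) = Sheaf.H.map φ.τ₁ 1 (δ q) := by
  refine ⟨(hS.extClass.postcomp _ (zero_add 1)).comp (Sheaf.H.equiv₀ S.X₃ hT).symm.toAddMonoidHom,
    fun x hx => ?_, fun q => ⟨fun hq => ?_, ?_⟩, fun φ q => ?_⟩
  · obtain ⟨y, rfl⟩ := Ext.covariant_sequence_exact₁ _ hS x hx (zero_add 1)
    exact ⟨Sheaf.H.equiv₀ S.X₃ hT y, by simp⟩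
  · obtain ⟨y, hy⟩ := Ext.covariant_sequence_exact₃ _ hS _ (zero_add 1) hq
    refine ⟨Sheaf.H.equiv₀ S.X₂ hT y, ?_⟩
    rw [Sheaf.H.equiv₀_naturality, Sheaf.H.map_apply, hy]
    simp
  · rintro ⟨b, rfl⟩
    change Ext.comp ((Sheaf.H.equiv₀ S.X₃ hT).symm _) _ (zero_add 1) = 0
    rw [← Sheaf.H.equiv₀_symm_naturality, Sheaf.H.map_apply,
      Ext.comp_assoc_of_second_deg_zero]
    simp
  · change Ext.comp ((Sheaf.H.equiv₀ S.X₃ hT).symm _) _ (zero_add 1) =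
      Ext.comp (Ext.comp _ _ (zero_add 1)) _ (add_zero 1)
    rw [← Sheaf.H.equiv₀_symm_naturality, Sheaf.H.map_apply,
      Ext.comp_assoc_of_second_deg_zero, Ext.comp_assoc_of_third_deg_zero,
      hS.extClass_naturality hS φ]
    rfl

end site

variable {T : Type} [TopologicalSpace T]

lemma exists_h0 (A : AbSh T) : ∃ e : (cohF T 0).obj A ≃+ A.obj.obj (op ⊤),
    ∀ (α : A ⟶ A) x, e (((cohF T 0).map α).hom x) = α.hom.app _ (e x) :=
  haveI := hasExt T
  ⟨Sheaf.H.equiv₀ A isTerminalTop, fun α x => (Sheaf.H.equiv₀_naturality isTerminalTop α x).symm⟩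

lemma h1_flasque (B : AbSh T) (hB : ∀ ⦃U V⦄ (i : U ⟶ V), Surjective (B.obj.map i))
    (x : (cohF T 1).obj B) : x = 0 := by
  have := hasExt T
  let S : ShortComplex (AbSh T) :=
    ShortComplex.mk (Injective.ι B) (cokernel.π _) (cokernel.condition _)
  have hS : S.ShortExact := { exact := ShortComplex.exact_cokernel _ }
  obtain ⟨δ, h1, h2, -⟩ := delta_site isTerminalTop hS
  have : Injective S.X₂ := inferInstanceAs (Injective (Injective.under B))
  obtain ⟨q, rfl⟩ := h1 x (Subsingleton.elim _ _)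
  have : TopCat.Sheaf.IsFlasque (X := TopCat.of T) S.X₁ :=
    ⟨fun i => (AddCommGrpCat.epi_iff_surjective _).2 (hB i)⟩
  exact (h2 q).2 ((AddCommGrpCat.epi_iff_surjective _).1
    (TopCat.Sheaf.IsFlasque.epi_of_shortExact (X := TopCat.of T) (U := ⊤) (S := S) hS) q)

/-- A short exact sequence of sheaves, in terms of sections. -/
structure SE {A B Q : AbSh T} (f : A ⟶ B) (g : B ⟶ Q) : Prop where
  inj : ∀ U, Injective (f.hom.app U)
  ex : ∀ U b, g.hom.app U b = 0 ↔ ∃ a, f.hom.app U a = b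
  surj : ∀ (U : Opens T) (t : Q.obj.obj (op U)), ∀ x ∈ U, ∃ (V : Opens T) (i : V ⟶ U)
    (b : B.obj.obj (op V)), x ∈ V ∧ g.hom.app (op V) b = Q.obj.map i.op t

variable {A B Q : AbSh T} {f : A ⟶ B} {g : B ⟶ Q}

lemma SE.zero (h : SE f g) : f ≫ g = 0 := by
  ext U a
  exact (h.ex U _).2 ⟨a, rfl⟩

lemma SE.shortExact (h : SE f g) : (ShortComplex.mk f g h.zero).ShortExact := by
  have h1 : ∀ U, Mono (f.hom.app U) := fun U => (AddCommGrpCat.mono_iff_injective _).2 (h.inj U)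
  have h2 : Mono f.hom := NatTrans.mono_of_mono_app _
  have h3 : Mono f := (sheafToPresheaf _ _).mono_of_mono_map h2
  have h4 : Sheaf.IsLocallySurjective g := ⟨fun {U} t x hx => by
    obtain ⟨V, i, b, h5, h6⟩ := h.surj U t x hx
    exact ⟨V, i, ⟨b, h6⟩, h5⟩⟩
  refine { exact := ShortComplex.exact_of_f_is_kernel _ (KernelFork.IsLimit.ofι' _ _ ?_) }
  intro W k hk
  have h5 : ∀ U w, ∃ a, f.hom.app U a = k.hom.app U w := fun U w =>
    (h.ex U _).1 congr(($hk).hom.app U w)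
  refine ⟨⟨⟨fun U => AddCommGrpCat.ofHom (AddMonoidHom.mk' (fun w => (h5 U w).choose)
    fun a b => h.inj U ?_), fun U V i => ?_⟩⟩, ?_⟩
  · rw [(h5 U _).choose_spec, map_add (ConcreteCategory.hom (f.hom.app U)), (h5 U _).choose_spec,
      (h5 U _).choose_spec, map_add]
  · ext w
    apply h.inj V
    refine (h5 V _).choose_spec.trans (Eq.trans ?_ congr($(f.hom.naturality i) _).symm)
    refine congr($(k.hom.naturality i) w).trans ?_
    exact congrArg (B.obj.map i) (h5 U w).choose_spec.symm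
  · ext U w
    exact (h5 U w).choose_spec

lemma SE.delta (h : SE f g) (hB : ∀ ⦃U V⦄ (i : U ⟶ V), Surjective (B.obj.map i)) :
    ∃ δ : Q.obj.obj (op ⊤) →+ (cohF T 1).obj A, Surjective δ ∧
      (∀ q, δ q = 0 ↔ ∃ b, g.hom.app _ b = q) ∧
      ∀ (α : A ⟶ A) (β : B ⟶ B) (γ : Q ⟶ Q), α ≫ f = f ≫ β → β ≫ g = g ≫ γ →
        ∀ q, δ (γ.hom.app _ q) = ((cohF T 1).map α).hom (δ q) := by
  have := hasExt T
  obtain ⟨δ, h1, h2, h3⟩ := delta_site isTerminalTop h.shortExact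
  exact ⟨δ, fun x => h1 x (h1_flasque B hB _), h2, fun α β γ e1 e2 => h3 ⟨α, β, γ, e1, e2⟩⟩

end Pool.Agent.Lib.CL88
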