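import Mathlib

open AlgebraicGeometry CategoryTheory TopologicalSpace

noncomputable section

namespace Pool.Agent.Lib.CL88

attribute [local instance] MvPolynomial.gradedAlgebra

/-- `s : C ⟶ Spec ℂ` is a smooth irreducible projective curve. -/
structure IsCurve {C : Scheme.{0}} (s : C ⟶ Spec (.of ℂ)) : Prop where
  irred : IrreducibleSpace C
  smooth : SmoothOfRelativeDimension 1 s
  proj : ∃ (n : ℕ) (ι : C ⟶ Proj (MvPolynomial.homogeneousSubmodule (Fin (n + 1)) ℂ)),
    IsClosedImmersion ι ∧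
      ι ≫ Proj.toSpecZero _ ≫ Spec.map (CommRingCat.ofHom (algebraMap ℂ _)) = s

variable {C : Scheme.{0}} (s : C ⟶ Spec (.of ℂ))

/-- The structure sheaf as a module over itself. -/
def strSheaf (C : Scheme.{0}) : C.Modules := SheafOfModules.unit C.ringCatSheaf

/-- `E` is locally free of rank `r`: locally there are `r` sections that form a basis of the
sections over every smaller open set. -/
def IsBundle (E : C.Modules) (r : ℕ) : Prop :=
  ∀ x : C, ∃ U : C.Opens, x ∈ U ∧ ∃ e : Fin r → Γ(E, U), ∀ (V : C.Opens) (i : V ⟶ U),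
    Function.Bijective fun a : Fin r → Γ(C, V) => ∑ j, a j • E.presheaf.map i.op (e j)

/-- Sheaves of abelian groups on a space. -/
abbrev AbSh (T : Type) [TopologicalSpace T] : Type 1 :=
  Sheaf (Opens.grothendieckTopology T) AddCommGrpCat.{0}

theorem hasExt (T : Type) [TopologicalSpace T] : HasExt.{0} (AbSh T) := inferInstance

/-- The sheaf cohomology functor `H^i(T, -)`. -/
def cohF (T : Type) [TopologicalSpace T] (i : ℕ) : AbSh T ⥤ AddCommGrpCat.{0} :=
  haveI := hasExt T
  Sheaf.functorH _ i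

instance (T : Type) [TopologicalSpace T] (i : ℕ) : (cohF T i).Additive :=
  haveI := hasExt T
  inferInstanceAs (Sheaf.functorH _ i).Additive

/-- The underlying sheaf of abelian groups. -/
def abSheaf (E : C.Modules) : AbSh C := ⟨E.presheaf, E.isSheaf⟩

/-- The complex number `c` as a function on `U`. -/
def cst (c : ℂ) (U : C.Opens) : Γ(C, U) :=
  ((Scheme.ΓSpecIso (.of ℂ)).inv ≫ s.appLE ⊤ U le_top).hom c

/-- Multiplication by `c` on sections over `U`. -/
def mulApp (E : C.Modules) (c : ℂ) (U : C.Opensᵒᵖ) : E.presheaf.obj U ⟶ E.presheaf.obj U :=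
  E.smul (cst s c U.unop)

theorem mulApp_nat (E : C.Modules) (c : ℂ) ⦃U V : C.Opensᵒᵖ⦄ (i : U ⟶ V) :
    E.presheaf.map i ≫ mulApp s E c V = mulApp s E c U ≫ E.presheaf.map i := by
  have h : C.presheaf.map i (cst s c U.unop) = cst s c V.unop :=
    congr($(s.appLE_map (U := ⊤) le_top i).hom ((Scheme.ΓSpecIso (.of ℂ)).inv c))
  exact (h ▸ E.map_comp_smul i.unop (cst s c U.unop)).symm

/-- Multiplication by `c` as a map of sheaves. -/
def mulBy (E : C.Modules) (c : ℂ) : abSheaf E ⟶ abSheaf E := ⟨⟨mulApp s E c, mulApp_nat s E c⟩⟩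

lemma mulBy_one (E : C.Modules) : mulBy s E 1 = 𝟙 _ :=
  Sheaf.hom_ext (NatTrans.ext (funext fun _ =>
    (congrArg E.smul (map_one _)).trans (map_one _)))

lemma mulBy_mul (E : C.Modules) (a b : ℂ) : mulBy s E (a * b) = mulBy s E b ≫ mulBy s E a :=
  Sheaf.hom_ext (NatTrans.ext (funext fun _ =>
    (congrArg E.smul (map_mul _ _ _)).trans (map_mul _ _ _)))

lemma mulBy_add (E : C.Modules) (a b : ℂ) : mulBy s E (a + b) = mulBy s E a + mulBy s E b :=
  Sheaf.hom_ext (NatTrans.ext (funext fun _ =>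
    (congrArg E.smul (map_add _ _ _)).trans (map_add _ _ _)))

/-- Sheaf cohomology `H^i(C, E)`. -/
def Coh (_s : C ⟶ Spec (.of ℂ)) (E : C.Modules) (i : ℕ) : Type := (cohF C i).obj (abSheaf E)

instance (E : C.Modules) (i : ℕ) : AddCommGroup (Coh s E i) := ((cohF C i).obj (abSheaf E)).str

/-- The map induced on cohomology by multiplication by `c`. -/
def act (E : C.Modules) (i : ℕ) (c : ℂ) : Coh s E i →+ Coh s E i :=
  ((cohF C i).map (mulBy s E c)).hom

instance (E : C.Modules) (i : ℕ) : SMul ℂ (Coh s E i) := ⟨fun c x => act s E i c x⟩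

instance (E : C.Modules) (i : ℕ) : Module ℂ (Coh s E i) :=
  Module.ofMinimalAxioms (fun c => map_add (act s E i c))
    (fun a b x => congr(($((congrArg (cohF C i).map (mulBy_add s E a b)).trans
      (cohF C i).map_add)).hom x))
    (fun a b x => congr(($((congrArg (cohF C i).map (mulBy_mul s E a b)).trans
      ((cohF C i).map_comp _ _))).hom x))
    fun x => congr(($((congrArg (cohF C i).map (mulBy_one s E)).trans ((cohF C i).map_id _))).hom x)

/-- `h^i(E) = dim H^i(C, E)`. -/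
def h (E : C.Modules) (i : ℕ) : ℤ := Module.finrank ℂ (Coh s E i)

/-- The genus `h¹(O)`. -/
def genus : ℤ := h s (strSheaf C) 1

/-- The degree `χ(E) - r χ(O)` of a bundle of rank `r`. -/
def deg (E : C.Modules) (r : ℕ) : ℤ :=
  h s E 0 - h s E 1 - r * (h s (strSheaf C) 0 - h s (strSheaf C) 1)

/-- The numbers `deg L - 2 (h⁰ L - 1)` for line bundles `L` with `h⁰ L ≥ 2` and `h¹ L ≥ 2`. -/
def cliffSet : Set ℤ :=
  {c | ∃ L : C.Modules, IsBundle L 1 ∧ 2 ≤ h s L 0 ∧ 2 ≤ h s L 1 ∧
    c = deg s L 1 - 2 * (h s L 0 - 1)}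

/-- A bundle of rank two is semistable: every line bundle inside it has at most its slope. -/
def Semistable (E : C.Modules) : Prop :=
  ∀ (L : C.Modules) (φ : L ⟶ E), IsBundle L 1 → Mono φ → 2 * deg s L 1 ≤ deg s E 2

/-- The numbers `(deg E - 2 (h⁰ E - 2)) / 2` for semistable bundles `E` of rank two with
`h⁰ E ≥ 4` and `deg E ≤ 2 (g - 1)`. -/
def cliffTwoSet : Set ℚ :=
  {c | ∃ E : C.Modules, IsBundle E 2 ∧ Semistable s E ∧ 4 ≤ h s E 0 ∧
    deg s E 2 ≤ 2 * (genus s - 1) ∧ c = ((deg s E 2 - 2 * (h s E 0 - 2) : ℤ) : ℚ) / 2}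

end Pool.Agent.Lib.CL88
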