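import Pool.Agent.Lib.CL88.Rep

open AlgebraicGeometry CategoryTheory TopologicalSpace Opposite
open Pool.Agent.Lib.MP_eeb174_ag

noncomputable section

namespace Pool.Agent.Lib.CL88

variable {K : Type} [Field K] [Algebra ℂ K] {C : Scheme.{0}} {s : C ⟶ Spec (.of ℂ)}
  {D : Dict s K} {r : ℕ} {E : C.Modules} {V : Lat K r}

variable (D V) in
/-- The stalks of a lattice at the points of the curve. -/
def Dict.st (y : C) : Submodule ℂ (Fin r → K) where
  carrier := {w | ∀ x, D.pt x = y → w ∈ V.S x}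
  add_mem' := fun ha hb x h => add_mem (ha x h) (hb x h)
  zero_mem' := fun _ _ => zero_mem _
  smul_mem' := fun c w hw x h => algebraMap_smul K c w ▸ Lat.smul_mem (x.const c) (hw x h)

lemma Dict.mk_zero {x : Place K} {w : Fin r → K} :
    (D.st V (D.pt x)).mkQ w = 0 ↔ w ∈ V.S x :=
  (Submodule.Quotient.mk_eq_zero _).trans ⟨fun h => h x rfl, fun h _ e => D.inj e ▸ h⟩

lemma Dict.mk_eq {x : Place K} {v w : Fin r → K} :
    (D.st V (D.pt x)).mkQ v = (D.st V (D.pt x)).mkQ w ↔ v - w ∈ V.S x :=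
  (Submodule.Quotient.eq _).trans ⟨fun h => h x rfl, fun h _ e => D.inj e ▸ h⟩

variable (D V) in
/-- The sheaf of principal parts. -/
def Dict.pp : Loc fun y : C => (Fin r → K) ⧸ D.st V y where
  P U :=
    { carrier := {f | {x | ∃ h, f ⟨D.pt x, h⟩ ≠ 0}.Finite}
      add_mem' := fun {f g} hf hg => (Set.Finite.union hf hg).subset fun x ⟨h, e⟩ => by
        by_contra h'
        simp only [Set.mem_union, Set.mem_ofPred_eq, not_or, not_exists, not_not] at h'
        exact e (by rw [Pi.add_apply, h'.1 h, h'.2 h, add_zero])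
      zero_mem' := Set.finite_empty.subset fun _ ⟨_, e⟩ => e rfl
      neg_mem' := fun hf => Set.Finite.subset hf fun _ ⟨h, e⟩ => ⟨h, neg_ne_zero.1 e⟩ }
  res i _ h := Set.Finite.subset h fun _ ⟨h', e⟩ => ⟨i.le h', e⟩
  loc {U} f h := by
    by_cases h0 : D.η ∈ U
    · obtain ⟨W, h1, i, h2⟩ := h ⟨_, h0⟩
      refine ((D.cof h1).union h2).subset fun x ⟨h3, e⟩ => ?_
      by_cases h4 : D.pt x ∈ W
      exacts [Or.inr ⟨h4, e⟩, Or.inl h4]
    · exact Set.finite_empty.subset fun _ ⟨h', _⟩ => h0 (D.gen h')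

lemma Dict.pp_ext {U : C.Opens} {f g : (D.pp V).P U}
    (h : ∀ x hx, f.1 ⟨D.pt x, hx⟩ = g.1 ⟨D.pt x, hx⟩) : f = g := by
  refine Subtype.ext (funext fun ⟨y, hy⟩ => ?_)
  obtain rfl | ⟨x, rfl⟩ := D.cases y
  · exact (Submodule.Quotient.subsingleton_iff.2
      (eq_top_iff.2 fun _ _ x e => absurd e (D.ne x))).elim _ _
  · exact h x hy

variable [Algebra (RatFunc ℂ) K] [IsScalarTower ℂ (RatFunc ℂ) K] [FiniteDimensional (RatFunc ℂ) K]

omit [Algebra (RatFunc ℂ) K] [IsScalarTower ℂ (RatFunc ℂ) K] [FiniteDimensional (RatFunc ℂ) K] in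
lemma Rep.smul_cst (R : Rep D E V) (U h) (c : ℂ) (a : Γ(E, U)) :
    R.ι U h (cst s c U • a) = c • R.ι U h a := by
  rw [R.smul, D.ev_cst, algebraMap_smul]

lemma finite_notMem (hV : V.gen = ⊤) (w : Fin r → K) : {x | w ∉ V.S x}.Finite :=
  (V.std_S.and (Filter.eventually_all.2 fun i => eventually_mem (w i))).mono fun _ h =>
    (h.1 w).2 ⟨hV ▸ trivial, h.2⟩

variable (R : Rep D E V)
include R

theorem Rep.h0 : h s E 0 = hdim V 0 := by
  obtain ⟨e, he⟩ := exists_h0 (abSheaf E)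
  let Θ : Coh s E 0 →ₗ[ℂ] (Fin r → K) :=
    { toFun := fun x => R.ι ⊤ trivial (e x)
      map_add' := fun x y => (congrArg _ (map_add e x y)).trans (map_add _ _ _)
      map_smul' := fun c x => (congrArg _ (he (mulBy s E c) x)).trans (R.smul_cst _ _ c _) }
  have h1 : LinearMap.range Θ = sec V 0 := Submodule.ext fun w => by
    simp only [mem_sec, tw_zero, one_smul]
    exact (e.surjective.exists (p := fun a => R.ι ⊤ trivial a = w)).symm.trans
      ((R.range ⊤ trivial w).trans ⟨fun h x => h x trivial, fun h x _ => h x⟩)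
  rw [h, hdim, ← h1, LinearMap.finrank_range_of_inj ((R.inj ⊤ trivial).comp e.injective)]

theorem Rep.h1 (hV : V.gen = ⊤) : h s E 1 = hdim V 0 - chiL V := by
  classical
  let B := D.const fun _ => (⊤ : AddSubgroup (Fin r → K))
  let k (U : C.Opens) (w : Fin r → K) : B.P U := ⟨fun _ => w, fun _ _ => rfl, fun _ _ => trivial⟩
  let f : abSheaf E ⟶ B.sh := ⟨⟨fun U => AddCommGrpCat.ofHom (.mk' (fun a : Γ(E, U.unop) =>
    (⟨fun y => R.ι _ (D.gen y.2) a, fun _ _ => rfl, fun _ _ => trivial⟩ : B.P U.unop))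
      fun a b => Subtype.ext (funext fun y => map_add _ a b)), fun U W i => by
        ext a
        exact Subtype.ext (funext fun y => R.res i.unop _ _ a)⟩⟩
  let g : B.sh ⟶ (D.pp V).sh := Loc.hom _ _ (fun y => (D.st V y).mkQ.toAddMonoidHom) fun U t ht => by
    by_cases h : D.η ∈ U
    · exact (finite_notMem hV (t ⟨_, h⟩)).subset fun x ⟨h1, e⟩ h2 =>
        e (Dict.mk_zero.2 (ht.1 ⟨_, h⟩ _ ▸ h2))
    · exact Set.finite_empty.subset fun _ ⟨h', _⟩ => h (D.gen h')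
  have hS : SE f g := by
    refine ⟨fun U a b e => R.ext fun h => congr(($e).1 ⟨_, h⟩), fun U b => ⟨fun H => ?_, ?_⟩,
      fun U t y hy => ?_⟩
    · by_cases h : D.η ∈ U.unop
      · obtain ⟨a, ha⟩ := (R.range _ h (b.1 ⟨_, h⟩)).2 fun x hx =>
          b.2.1 ⟨_, hx⟩ _ ▸ Dict.mk_zero.1 congr(($H).1 ⟨_, hx⟩)
        exact ⟨a, Subtype.ext (funext fun y => ha.trans (b.2.1 _ _))⟩
      · exact ⟨0, Subtype.ext (funext fun y => absurd (D.gen y.2) h)⟩
    · rintro ⟨a, rfl⟩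
      exact Dict.pp_ext fun x hx => Dict.mk_zero.2 ((R.range _ _ _).1 ⟨a, rfl⟩ x hx)
    · obtain ⟨w, hw⟩ := (D.st V y).mkQ_surjective (t.1 ⟨y, hy⟩)
      obtain ⟨W, h1, h2⟩ := D.exists_open
        (T := {x | ∃ h, (D.st V (D.pt x)).mkQ w ≠ t.1 ⟨D.pt x, h⟩})
        (((finite_notMem hV w).union t.2).subset fun x ⟨h, e⟩ => by
          by_contra h'
          simp only [Set.mem_union, Set.mem_ofPred_eq, not_or, not_exists, not_not] at h'
          exact e ((Dict.mk_zero.2 h'.1).trans (h'.2 h).symm))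
      refine ⟨W ⊓ U, Opens.infLERight _ _, k _ w, ⟨?_, hy⟩,
        Dict.pp_ext fun x hx => not_not.1 fun e => (h2 x).1 hx.1 ⟨hx.2, e⟩⟩
      obtain rfl | ⟨x, rfl⟩ := D.cases y
      exacts [h1, (h2 x).2 fun ⟨_, e⟩ => e hw]
  obtain ⟨δ, h1, h2, h3⟩ := hS.delta fun U W i t => by
    by_cases h : D.η ∈ W.unop
    · exact ⟨k _ (t.1 ⟨_, h⟩), Subtype.ext (funext fun y => t.2.1 _ _)⟩
    · exact ⟨0, Subtype.ext (funext fun y => absurd (D.gen y.2) h)⟩
  let q (w : Fin r → K) : (D.pp V).P ⊤ :=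
    ⟨fun y => if ∃ x ∈ Ui K, D.pt x = y then (D.st V y).mkQ w else 0,
      (finite_notMem hV w).subset fun x ⟨_, e⟩ h => e (by
        beta_reduce
        split_ifs
        exacts [Dict.mk_zero.2 h, rfl])⟩
  have q0 : ∀ w, ∀ x ∈ U0 K, (q w).1 ⟨D.pt x, trivial⟩ = 0 := fun w x h =>
    if_neg fun ⟨_, h1, h2⟩ => h1 (D.inj h2 ▸ h)
  have qi : ∀ w, ∀ x ∈ Ui K, (q w).1 ⟨D.pt x, trivial⟩ = (D.st V _).mkQ w := fun w x h =>
    if_pos ⟨x, h, rfl⟩
  have ext : ∀ {a b : (D.pp V).P ⊤},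
      (∀ x ∈ U0 K, a.1 ⟨D.pt x, trivial⟩ = b.1 ⟨D.pt x, trivial⟩) →
      (∀ x ∈ Ui K, a.1 ⟨D.pt x, trivial⟩ = b.1 ⟨D.pt x, trivial⟩) → a = b := fun h h' =>
    Dict.pp_ext fun x _ => (em (x ∈ U0 K)).elim (h x) (h' x)
  let γ (c : ℂ) : (D.pp V).sh ⟶ (D.pp V).sh :=
    Loc.hom _ _ (fun y => DistribSMul.toAddMonoidHom _ c) fun U t ht =>
      Set.Finite.subset ht fun x ⟨h, e⟩ => ⟨h, right_ne_zero_of_smul e⟩
  let Θ : (Fin r → K) →ₗ[ℂ] Coh s E 1 :=
    { toFun := fun w => δ (q w)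
      map_add' := fun v w => (congrArg δ (ext
        (fun x h => (q0 _ x h).trans (by
          change _ = (q v).1 _ + (q w).1 _
          rw [q0 _ x h, q0 _ x h, add_zero]))
        fun x h => (qi _ x h).trans (by
          change _ = (q v).1 _ + (q w).1 _
          rw [qi _ x h, qi _ x h, map_add]))).trans (map_add δ (q v) (q w))
      map_smul' := fun c w => (congrArg δ (ext
        (fun x h => (q0 _ x h).trans (by
          change _ = c • (q w).1 _
          rw [q0 _ x h, smul_zero]))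
        fun x h => (qi _ x h).trans (by
          change _ = c • (q w).1 _
          rw [qi _ x h, map_smul]))).trans (h3 (mulBy s E c) (Loc.hom _ _
            (fun y => DistribSMul.toAddMonoidHom _ c) fun U t ht =>
              ⟨fun y y' => congrArg (c • ·) (ht.1 y y'), fun _ _ => trivial⟩) (γ c) (by
            ext U a
            exact Subtype.ext (funext fun y => R.smul_cst _ _ c a)) rfl (q w)) }
  refine h1_dim hV Θ (fun y => ?_) fun w => (h2 _).trans ⟨fun ⟨b, hb⟩ => ?_, fun ⟨v, h4, h5⟩ => ?_⟩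
  · obtain ⟨t, rfl⟩ := h1 y
    choose a ha using fun x => (D.st V (D.pt x)).mkQ_surjective (t.1 ⟨D.pt x, trivial⟩)
    have h4 : {x | a x ∉ V.S x}.Finite := Set.Finite.subset t.2 fun x hx =>
      ⟨trivial, fun e => hx (Dict.mk_zero.1 ((ha x).trans e))⟩
    obtain ⟨v, hv⟩ := approx_lat good_U0 hV a h4
    obtain ⟨w, hw⟩ := approx_lat good_Ui hV (fun x => a x - v)
      ((h4.union (finite_notMem hV v)).subset fun x hx => by
        by_contra h
        simp only [Set.mem_union, Set.mem_ofPred_eq, not_or, not_not] at h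
        exact hx (sub_mem h.1 h.2))
    refine ⟨w, ?_⟩
    let t' : (D.pp V).P ⊤ := g.hom.app _ (k ⊤ v)
    refine Eq.symm ((congrArg δ (ext (b := q w + t') (fun x h => ?_) fun x h => ?_)).trans
      ((map_add δ (q w) t').trans ((congrArg _ ((h2 _).2 ⟨_, rfl⟩)).trans (add_zero _))))
    · change _ = (q w).1 _ + (D.st V _).mkQ v
      rw [q0 _ x h, zero_add, ← ha, eq_comm]
      exact Dict.mk_eq.2 (hv x h)
    · change _ = (q w).1 _ + (D.st V _).mkQ v
      rw [qi _ x h, ← map_add, ← ha, eq_comm]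
      exact Dict.mk_eq.2 (by simpa [sub_sub_eq_add_sub] using hw x h)
  · have h4 : ∀ x, (D.st V (D.pt x)).mkQ (b.1 ⟨D.η, trivial⟩) = (q w).1 ⟨D.pt x, trivial⟩ :=
      fun x => b.2.1 ⟨_, trivial⟩ _ ▸ congr(($hb).1 ⟨D.pt x, trivial⟩)
    exact ⟨b.1 ⟨D.η, trivial⟩, fun x h => Dict.mk_zero.1 ((h4 x).trans (q0 _ x h)),
      fun x h => Dict.mk_eq.1 ((h4 x).trans (qi _ x h)).symm⟩
  · exact ⟨k ⊤ v, ext (fun x h => (Dict.mk_zero.2 (h4 x h)).trans (q0 _ x h).symm)
      fun x h => ((qi _ x h).trans (Dict.mk_eq.2 (h5 x h))).symm⟩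

end Pool.Agent.Lib.CL88
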