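import Pool.Agent.Lib.CL88.Coh

open CategoryTheory TopologicalSpace Opposite

noncomputable section

namespace Pool.Agent.Lib.CL88

variable {T : Type} [TopologicalSpace T]

/-- A locally defined family of groups of functions. -/
structure Loc (M : T → Type) [∀ y, AddCommGroup (M y)] where
  P : ∀ U : Opens T, AddSubgroup (∀ y : U, M y)
  res : ∀ {U V : Opens T} (i : U ⟶ V) (f), f ∈ P V → (fun y : U => f ⟨y, i.le y.2⟩) ∈ P U
  loc : ∀ {U : Opens T} (f), (∀ y : U, ∃ (V : Opens T) (_ : y.1 ∈ V) (i : V ⟶ U),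
    (fun z : V => f ⟨z, i.le z.2⟩) ∈ P V) → f ∈ P U

variable {M M' : T → Type} [∀ y, AddCommGroup (M y)] [∀ y, AddCommGroup (M' y)]

/-- The presheaf of a family. -/
def Loc.pre (L : Loc M) : (Opens T)ᵒᵖ ⥤ AddCommGrpCat.{0} where
  obj U := .of (L.P U.unop)
  map i := AddCommGrpCat.ofHom ⟨⟨fun f => ⟨_, L.res i.unop f.1 f.2⟩, rfl⟩, fun _ _ => rfl⟩

/-- The sheaf of a family. -/
def Loc.sh (L : Loc M) : AbSh T :=
  ⟨L.pre, (TopCat.Presheaf.isSheaf_iff_isSheaf_comp (X := .of T) (forget _) L.pre).2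
    (TopCat.Presheaf.isSheaf_of_iso (by exact NatIso.ofComponents (fun _ => Iso.refl _) fun _ => rfl)
    (TopCat.subpresheafToTypes.isSheaf (X := .of T) ⟨⟨fun {U} f => f ∈ L.P U, L.res⟩, L.loc⟩))⟩

/-- A map of sheaves given on values. -/
def Loc.hom (L : Loc M) (L' : Loc M') (φ : ∀ y, M y →+ M' y)
    (h : ∀ U, ∀ f ∈ L.P U, (fun y : U => φ y (f y)) ∈ L'.P U) : L.sh ⟶ L'.sh :=
  ⟨⟨fun U => AddCommGrpCat.ofHom ⟨⟨fun f : L.P U.unop => (⟨_, h _ f.1 f.2⟩ : L'.P U.unop),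
    Subtype.ext (funext fun _ => map_zero _)⟩,
    fun _ _ => Subtype.ext (funext fun _ => map_add _ _ _)⟩, fun _ _ _ => rfl⟩⟩

end Pool.Agent.Lib.CL88
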