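import Pool.Agent.Lib.CL88.Dim
import Pool.Agent.Lib.MP_eeb174_ag.Main

open AlgebraicGeometry CategoryTheory Pool.Agent.Lib.MP_eeb174_ag

namespace Pool.Agent.Lib.CL88

variable {K : Type} [Field K] [Algebra ℂ K] [Algebra (RatFunc ℂ) K]
  [IsScalarTower ℂ (RatFunc ℂ) K] [FiniteDimensional (RatFunc ℂ) K]
  {C : Scheme.{0}} {s : C ⟶ Spec (.of ℂ)} {D : Dict s K} {r g : ℕ} {E : C.Modules} {V : Lat K r}

lemma gen_one (A : Place K →₀ ℤ) : (line (1 : Fin 1 → K) A).gen = ⊤ :=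
  (gen_line _ _).trans span_one_top

lemma Rep.deg_eq (R : Rep D E V) (hV : V.gen = ⊤) {d : ℤ} : HasRD V r d ↔ d = deg s E r := by
  rw [hasRD_iff, rk_eq_iff_gen, deg, R.h1 hV, R.h0, D.repO.h1 (gen_one 0), D.repO.h0, chiO, OO]
  exact ⟨fun h => by linarith [h.2], fun h => ⟨hV, by linarith⟩⟩

lemma Rep.deg_line {A : Place K →₀ ℤ} (R : Rep D E (line (1 : Fin 1 → K) A)) :
    Finsupp.degree A = deg s E 1 := (R.deg_eq (gen_one A)).1 (hasRD_line one_ne_zero A)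

lemma Rep.semistable {V : Lat K 2} (R : Rep D E V) :
    Semistable s E ↔ MP_eeb174_ag.Semistable V (deg s E 2) := by
  refine ⟨fun H L e hL hle => ?_, fun H L φ hL hφ => ?_⟩
  · obtain ⟨w, A, hw, rfl, rfl⟩ := exists_line_of_hasRD hL
    obtain ⟨L, ⟨R'⟩⟩ := D.exists_rep (line (1 : Fin 1 → K) A)
    obtain ⟨φ, hφ⟩ := R.exists_mono R' hw (Lat.le_iff_st.1 hle)
    exact R'.deg_line ▸ H L φ (R'.isBundle (gen_one A)) hφ
  · obtain ⟨W, hW, ⟨R'⟩⟩ := D.exists_lat hL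
    obtain ⟨A, rfl⟩ := exists_line one_ne_zero (hW.trans span_one_top.symm)
    obtain ⟨w, hw, hle⟩ := R.of_mono R' φ
    exact R'.deg_line ▸ H _ _ (hasRD_line hw A) (Lat.le_iff_st.2 hle)

variable (D) (hg : HasGenus K g)
include D hg

lemma Dict.genus_eq : genus s = g := by
  rw [genus, D.repO.h1 (gen_one 0), hdim_line_zero one_ne_zero, el_zero]
  linarith [hg.chiO_eq, show chiO K = chiL (line (1 : Fin 1 → K) 0) from rfl]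

lemma Dict.cliffSet_eq : cliffSet s = MP_eeb174_ag.cliffSet K g := by
  have key : ∀ {E : C.Modules} {V : Lat K 1}, Rep D E V → V.gen = ⊤ →
      h s E 1 = hdim V 0 - deg s E 1 - 1 + g := fun R hV => by
    have := (hasRD_iff.1 ((R.deg_eq hV).2 rfl)).2
    rw [R.h1 hV, this, hg.chiO_eq]
    push_cast
    ring
  ext c
  refine ⟨fun ⟨L, h1, h2, h3, h4⟩ => ?_, fun ⟨V, d, h1, h2, h3, h4⟩ => ?_⟩
  · obtain ⟨V, hV, ⟨R⟩⟩ := D.exists_lat h1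
    exact ⟨V, _, (R.deg_eq hV).2 rfl, R.h0 ▸ h2, key R hV ▸ h3, R.h0 ▸ h4⟩
  · have hV := rk_eq_iff_gen.1 (hasRD_iff.1 h1).1
    obtain ⟨L, ⟨R⟩⟩ := D.exists_rep V
    obtain rfl := (R.deg_eq hV).1 h1
    exact ⟨L, R.isBundle hV, R.h0 ▸ h2, key R hV ▸ h3, R.h0 ▸ h4⟩

lemma Dict.cliffTwoSet_eq : cliffTwoSet s = MP_eeb174_ag.cliffTwoSet K g := by
  ext c
  refine ⟨fun ⟨E, h1, h2, h3, h4, h5⟩ => ?_, fun ⟨V, d, h1, h2, h3, h4, h5⟩ => ?_⟩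
  · obtain ⟨V, hV, ⟨R⟩⟩ := D.exists_lat h1
    exact ⟨V, _, (R.deg_eq hV).2 rfl, R.semistable.1 h2, R.h0 ▸ h3, D.genus_eq hg ▸ h4, R.h0 ▸ h5⟩
  · have hV := rk_eq_iff_gen.1 (hasRD_iff.1 h1).1
    obtain ⟨E, ⟨R⟩⟩ := D.exists_rep V
    obtain rfl := (R.deg_eq hV).1 h1
    exact ⟨E, R.isBundle hV, R.semistable.2 h2, R.h0 ▸ h3, D.genus_eq hg ▸ h4, R.h0 ▸ h5⟩

end Pool.Agent.Lib.CL88
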