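import Pool.Agent.Lib.CL88.Curve
import Pool.Agent.Lib.CL88.Fun

open AlgebraicGeometry CategoryTheory TopologicalSpace Opposite
open Pool.Agent.Lib.MP_eeb174_ag

noncomputable section

namespace Pool.Agent.Lib.CL88

variable {K : Type} [Field K] [Algebra ℂ K] {C : Scheme.{0}} {s : C ⟶ Spec (.of ℂ)}
  (D : Dict s K) {r : ℕ}

/-- The sheaf `E` is the subsheaf of the constant sheaf given by the lattice `V`. -/
structure Rep (E : C.Modules) (V : Lat K r) where
  ι : ∀ U : C.Opens, D.η ∈ U → (Γ(E, U) →+ (Fin r → K))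
  res : ∀ {U W : C.Opens} (i : W ⟶ U) hU hW a, ι W hW (E.presheaf.map i.op a) = ι U hU a
  inj : ∀ U h, Function.Injective (ι U h)
  smul : ∀ U h (c : Γ(C, U)) a, ι U h (c • a) = D.ev U h c • ι U h a
  range : ∀ U h w, (∃ a, ι U h a = w) ↔ ∀ x, D.pt x ∈ U → w ∈ V.S x

lemma res_res (E : C.Modules) {U V W : C.Opens} (i : V ⟶ U) (j : W ⟶ V) (k : W ⟶ U) (a : Γ(E, U)) :
    E.presheaf.map j.op (E.presheaf.map i.op a) = E.presheaf.map k.op a :=
  congr($(E.presheaf.map_comp i.op j.op) a).symm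

namespace Dict

lemma sub (E : C.Modules) {U : C.Opens} (h : D.η ∉ U) (a b : Γ(E, U)) : a = b :=
  E.isSheaf.section_ext (U := op U) fun _ hx => absurd (D.gen hx) h

lemma exists_open {T : Set (Place K)} (hT : T.Finite) :
    ∃ U : C.Opens, D.η ∈ U ∧ ∀ x, D.pt x ∈ U ↔ x ∉ T :=
  ⟨⟨(⋃ x ∈ T, {D.pt x})ᶜ, (hT.isClosed_biUnion fun x _ => D.closed x).isOpen_compl⟩,
    by simpa using fun x _ => (D.ne x).symm, fun x => by
      simpa [D.inj.eq_iff] using ⟨fun h hx => h x hx rfl, fun h y hy e => h (e ▸ hy)⟩⟩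

/-- Constant functions with values in given subgroups. -/
def const (A : Place K → AddSubgroup (Fin r → K)) : Loc fun _ : C => Fin r → K where
  P U :=
    { carrier := {f | (∀ y y', f y = f y') ∧ ∀ x h, f ⟨D.pt x, h⟩ ∈ A x}
      add_mem' := fun hf hg => ⟨fun y y' => congr($(hf.1 y y') + $(hg.1 y y')),
        fun x h => add_mem (hf.2 x h) (hg.2 x h)⟩
      zero_mem' := ⟨fun _ _ => rfl, fun _ _ => zero_mem _⟩
      neg_mem' := fun hf => ⟨fun y y' => congr(-$(hf.1 y y')), fun x h => neg_mem (hf.2 x h)⟩ }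
  res _ _ h := ⟨fun _ _ => h.1 _ _, fun x _ => h.2 x _⟩
  loc f h := by
    refine ⟨fun y y' => ?_, fun x hx => ?_⟩
    · obtain ⟨V, h1, i, h2⟩ := h y
      obtain ⟨V', h3, i', h4⟩ := h y'
      exact (h2.1 ⟨y, h1⟩ ⟨_, D.gen h1⟩).trans (h4.1 ⟨_, D.gen h3⟩ ⟨y', h3⟩)
    · obtain ⟨V, h1, i, h2⟩ := h ⟨_, hx⟩
      exact h2.2 x h1

theorem exists_rep (V : Lat K r) : ∃ E, Nonempty (Rep D E V) := by
  let L := D.const fun x => (V.S x).toAddSubgroup
  let _ (U : C.Opensᵒᵖ) : SMul (C.ringCatSheaf.obj.obj U) (L.pre.obj U) :=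
    ⟨fun a f => ⟨fun y => D.ev U.unop (D.gen y.2) a • f.1 y,
      fun y y' => congr(_ • $(f.2.1 y y')), fun x h =>
        Lat.smul_mem ((D.ev_range _ _ _).1 ⟨a, rfl⟩ x h) (f.2.2 x h)⟩⟩
  let _ (U : C.Opensᵒᵖ) : Module (C.ringCatSheaf.obj.obj U) (L.pre.obj U) := .ofMinimalAxioms
    (fun a f g => Subtype.ext (funext fun y => smul_add _ _ _))
    (fun a b f => Subtype.ext (funext fun y =>
      (congrArg (· • f.1 y) (map_add (D.ev U.unop (D.gen y.2)) a b)).trans (add_smul _ _ _)))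
    (fun a b f => Subtype.ext (funext fun y =>
      (congrArg (· • f.1 y) (map_mul (D.ev U.unop (D.gen y.2)) a b)).trans (mul_smul _ _ _)))
    fun f => Subtype.ext (funext fun y =>
      (congrArg (· • f.1 y) (map_one (D.ev U.unop (D.gen y.2)))).trans (one_smul _ _))
  exact ⟨⟨PresheafOfModules.ofPresheaf L.pre fun U W i a f => Subtype.ext (funext fun y =>
    congrArg (· • _) (D.ev_res i.unop (D.gen (i.unop.le y.2)) (D.gen y.2) a).symm), L.sh.2⟩,
    ⟨fun U h => ⟨⟨fun f => f.1 ⟨_, h⟩, rfl⟩, fun _ _ => rfl⟩, fun _ _ _ _ => rfl,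
      fun U h f g e => Subtype.ext (funext fun y => (f.2.1 _ _).trans (e.trans (g.2.1 _ _))),
      fun _ _ _ _ => rfl, fun U h w => ⟨fun ⟨f, e⟩ x hx => ((f.2.1 ⟨_, hx⟩ _).trans e) ▸ f.2.2 x hx,
        fun hw => ⟨⟨fun _ => w, fun _ _ => rfl, hw⟩, rfl⟩⟩⟩⟩

variable [Algebra (RatFunc ℂ) K] [IsScalarTower ℂ (RatFunc ℂ) K] [FiniteDimensional (RatFunc ℂ) K]

lemma near {U : C.Opens} {y : C} (hy : y ∈ U) :
    ∃ x, D.pt x ∈ U ∧ ∀ V : C.Opens, D.pt x ∈ V → y ∈ V := by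
  obtain rfl | ⟨x, rfl⟩ := D.cases y
  · obtain ⟨x, hx⟩ := (D.cof hy).exists_notMem
    exact ⟨x, not_not.1 hx, fun V hV => D.gen hV⟩
  · exact ⟨x, hy, fun _ => id⟩

lemma real (w : Fin r → K) : ∃ U : C.Opens, D.η ∈ U ∧ (∀ x, (∀ j, w j ∈ x.O) → D.pt x ∈ U) ∧
    ∀ W ≤ U, ∀ h, ∃ c : Fin r → Γ(C, W), ∀ j, D.ev W h (c j) = w j := by
  obtain ⟨U, h1, h2⟩ := D.exists_open (Set.finite_iUnion fun j => finite_poles (w j))
  simp only [Set.mem_iUnion, not_exists, Set.mem_ofPred_eq, not_not] at h2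
  exact ⟨U, h1, fun x => (h2 x).2, fun W hW h => Classical.skolem.1 fun j =>
    (D.ev_range W h _).2 fun x hx => (h2 x).1 (hW hx) j⟩

lemma glue {E : C.Modules} {ι : ∀ U : C.Opens, D.η ∈ U → (Γ(E, U) →+ (Fin r → K))}
    (res : ∀ {U W : C.Opens} (i : W ⟶ U) hU hW a, ι W hW (E.presheaf.map i.op a) = ι U hU a)
    (inj : ∀ U h, Function.Injective (ι U h)) {U : C.Opens} (h : D.η ∈ U) {w : Fin r → K}
    (H : ∀ x, D.pt x ∈ U → ∃ (W : C.Opens) (hW : D.pt x ∈ W) (a : Γ(E, W)),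
      ι W (D.gen hW) a = w) : ∃ a, ι U h a = w := by
  have H' (y : U) : ∃ (V : C.Opens) (hy : y.1 ∈ V) (_ : V ≤ U) (a : Γ(E, V)),
      ι V (D.gen hy) a = w := by
    obtain ⟨x, h1, h2⟩ := D.near y.2
    obtain ⟨V, h3, a, rfl⟩ := H x h1
    exact ⟨V ⊓ U, ⟨h2 V h3, y.2⟩, inf_le_right, _,
      res (homOfLE inf_le_left) (D.gen h3) ⟨D.gen h3, h⟩ a⟩
  choose V hy hV a ha using H'
  obtain ⟨t, ht, -⟩ := TopCat.Sheaf.existsUnique_gluing' (abSheaf E) V U (fun y => homOfLE (hV y))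
    (fun y h => Opens.mem_iSup.2 ⟨⟨y, h⟩, hy _⟩) a fun y y' =>
      have e : D.η ∈ V y ⊓ V y' := ⟨D.gen (hy y), D.gen (hy y')⟩
      inj _ e (((res _ e.1 e _).trans (ha y)).trans ((res _ e.2 e _).trans (ha y')).symm)
  exact ⟨t, (res _ h (D.gen (hy ⟨_, h⟩)) t).symm.trans ((congrArg _ (ht _)).trans (ha _))⟩

theorem exists_lat {E : C.Modules} (hE : IsBundle E r) :
    ∃ V : Lat K r, V.gen = ⊤ ∧ Nonempty (Rep D E V) := by
  choose U hU e he using hE
  have g (y) {W : C.Opens} (h : D.η ∈ W) : D.η ∈ W ⊓ U y := ⟨h, D.gen (hU y)⟩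
  have ex (W : C.Opens) (h : D.η ∈ W) (a : Γ(E, W)) : ∃ w : Fin r → K, ∀ (W' : C.Opens)
      (i : W' ⟶ W) (i₀ : W' ⟶ U D.η) hW (c : Fin r → Γ(C, W')),
      ∑ j, c j • E.presheaf.map i₀.op (e _ j) = E.presheaf.map i.op a →
        w = fun j => D.ev W' hW (c j) := by
    obtain ⟨c, hc⟩ := (he _ _ (Opens.infLERight W (U D.η))).2
      (E.presheaf.map (Opens.infLELeft _ _).op a)
    refine ⟨fun j => D.ev _ (g D.η h) (c j), fun W' i i₀ hW c' hc' => ?_⟩
    let k : W' ⟶ W ⊓ U D.η := homOfLE (le_inf i.le i₀.le)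
    obtain rfl : (fun j => C.presheaf.map k.op (c j)) = c' := (he _ _ i₀).1 <| by
      have := congrArg (E.presheaf.map k.op) hc
      simp only [map_sum, Scheme.Modules.map_smul, res_res E _ k i, res_res E _ k i₀] at this
      exact this.trans hc'.symm
    exact funext fun j => (D.ev_res k _ _ _).symm
  choose ι₀ key using ex
  have crd (y) {W : C.Opens} (a : Γ(E, W)) : ∃ c : Fin r → Γ(C, W ⊓ U y),
      ∑ j, c j • E.presheaf.map (Opens.infLERight _ _).op (e y j) =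
        E.presheaf.map (Opens.infLELeft _ _).op a := (he _ _ _).2 _
  let ι (W : C.Opens) (h : D.η ∈ W) : Γ(E, W) →+ (Fin r → K) := .mk' (ι₀ W h) fun a b => by
    obtain ⟨c, hc⟩ := crd D.η a
    obtain ⟨c', hc'⟩ := crd D.η b
    rw [key W h a _ _ _ (g D.η h) c hc, key W h b _ _ _ (g D.η h) c' hc',
      key W h _ _ (Opens.infLELeft _ _) (Opens.infLERight _ _) (g D.η h) (c + c')
        (by simp only [Pi.add_apply, add_smul, Finset.sum_add_distrib, hc, hc', map_add])]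
    exact funext fun j => map_add _ _ _
  have res : ∀ {W W' : C.Opens} (i : W' ⟶ W) hU hW a,
      ι W' hW (E.presheaf.map i.op a) = ι W hU a := fun i h h' a => by
    obtain ⟨c, hc⟩ := crd D.η (E.presheaf.map i.op a)
    exact (key _ h' _ _ _ _ (g D.η h') c hc).trans (key _ h a _ (Opens.infLELeft _ _ ≫ i) _
      (g D.η h') c (hc.trans (res_res E _ _ _ a))).symm
  have smul : ∀ W h (c : Γ(C, W)) a, ι W h (c • a) = D.ev W h c • ι W h a := fun W h f a => by
    obtain ⟨c, hc⟩ := crd D.η a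
    refine (key W h _ _ (Opens.infLELeft _ _) (Opens.infLERight _ _) (g D.η h)
      (fun j => C.presheaf.map (Opens.infLELeft W (U D.η)).op f * c j) (by
        simp only [mul_smul, ← Finset.smul_sum, hc, Scheme.Modules.map_smul])).trans (Eq.trans ?_
            (congrArg _ (key W h a _ _ _ (g D.η h) c hc)).symm)
    exact funext fun j => (map_mul _ _ _).trans (congrArg (· * _) (D.ev_res _ _ _ f))
  have zero : ∀ {y} {W : C.Opens} (i : W ⟶ U y) h (c : Fin r → Γ(C, W)),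
      ∑ j, c j • E.presheaf.map i.op (e y j) = 0 → ∀ j, D.ev W h (c j) = 0 := fun i h c hc j => by
    obtain rfl : c = 0 := (he _ _ i).1 (hc.trans (by simp))
    exact map_zero _
  have inj : ∀ W h, Function.Injective (ι W h) := fun W h =>
    (injective_iff_map_eq_zero _).2 fun a ha => by
      obtain ⟨c, hc⟩ := crd D.η a
      obtain rfl : c = 0 := funext fun j => D.ev_inj _ (g D.η h)
        ((congrFun ((key W h a _ _ _ (g D.η h) c hc).symm.trans ha) j).trans (map_zero _).symm)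
      refine E.isSheaf.section_ext (U := op W) fun y hy => ⟨W ⊓ U y, inf_le_left, ⟨hy, hU y⟩, ?_⟩
      obtain ⟨c', hc'⟩ := crd y a
      let W' := (W ⊓ U y) ⊓ (W ⊓ U D.η)
      have h' : D.η ∈ W' := ⟨g y h, g _ h⟩
      obtain rfl : c' = 0 := funext fun j => D.ev_inj _ h'.1 <| by
        rw [← D.ev_res (Opens.infLELeft _ _) _ h', Pi.zero_apply, map_zero]
        refine zero (homOfLE (inf_le_left.trans inf_le_right)) h'
          (fun j => C.presheaf.map (Opens.infLELeft _ _).op (c' j)) ?_ j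
        have h1 := congrArg (E.presheaf.map (Opens.infLELeft _ (W ⊓ U D.η)).op) hc'
        have h2 := congrArg (E.presheaf.map (Opens.infLERight (W ⊓ U y) _).op) hc
        rw [res_res E _ _ (homOfLE (inf_le_left.trans inf_le_left))] at h1 h2
        simp only [map_sum, Scheme.Modules.map_smul,
          res_res E _ _ (homOfLE (inf_le_left.trans inf_le_right) : W' ⟶ U y)] at h1
        rw [h1, ← h2]
        simp
      exact hc'.symm.trans (by simp)
  have frame : ∀ y {W : C.Opens} (i : W ⟶ U y) h (c : Fin r → Γ(C, W)),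
      ι W h (∑ j, c j • E.presheaf.map i.op (e y j)) =
        ∑ j, D.ev W h (c j) • ι _ (D.gen (hU y)) (e y j) := fun y W i h c => by
    simp only [map_sum, smul, res i (D.gen (hU y))]
  have expand : ∀ y {W : C.Opens} h (a : Γ(E, W)), ∃ c : Fin r → Γ(C, W ⊓ U y),
      ι W h a = ∑ j, D.ev _ (g y h) (c j) • ι _ (D.gen (hU y)) (e y j) := fun y W h a => by
    obtain ⟨c, hc⟩ := crd y a
    exact ⟨c, by rw [← frame, hc, res]⟩
  have std : ∀ {W : C.Opens} (i : W ⟶ U D.η) h (c : Fin r → Γ(C, W)),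
      ι W h (∑ j, c j • E.presheaf.map i.op (e _ j)) = fun j => D.ev W h (c j) :=
    fun i h c => key _ h _ _ (𝟙 _) i h c (by simp)
  let S (x : Place K) : Submodule x.O (Fin r → K) :=
    .span _ (Set.range fun j => ι _ (D.gen (hU (D.pt x))) (e _ j))
  have loc : ∀ x w, w ∈ S x ↔ ∃ (W : C.Opens) (hW : D.pt x ∈ W) (a : Γ(E, W)),
      ι W (D.gen hW) a = w := fun x w => by
    rw [mem_span_O]
    refine ⟨fun ⟨c, h1, h2⟩ => ?_, fun ⟨W, hW, a, h1⟩ => ?_⟩
    · obtain ⟨W, -, h3, h4⟩ := D.real c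
      obtain ⟨c', h5⟩ := h4 (W ⊓ U (D.pt x)) inf_le_left (D.gen ⟨h3 x h1, hU _⟩)
      exact ⟨W ⊓ U (D.pt x), ⟨h3 x h1, hU _⟩, _, (frame _ (Opens.infLERight _ _) _ c').trans
        (by simp only [h5, h2])⟩
    · obtain ⟨c, hc⟩ := expand (D.pt x) (D.gen hW) a
      exact ⟨_, fun j => (D.ev_range _ _ _).1 ⟨c j, rfl⟩ x ⟨hW, hU _⟩, h1.symm.trans hc⟩
  refine ⟨Lat.mk' ⊤ S (fun _ => Submodule.fg_span (Set.finite_range _)) (fun x => ?_)
    ((D.cof (hU _)).subset fun x hx h => hx fun w => ?_), rfl,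
    ⟨ι, res, inj, smul, fun W h w => ?_⟩⟩
  · rw [Submodule.span_span_of_tower, eq_top_iff]
    intro w _
    obtain ⟨W, h1, -, h2⟩ := D.real w
    obtain ⟨c, h3⟩ := h2 (W ⊓ U D.η) inf_le_left (g D.η h1)
    obtain ⟨c', h4⟩ := expand (D.pt x) (g D.η h1)
      (∑ j, c j • E.presheaf.map (Opens.infLERight _ _).op (e _ j))
    rw [← funext h3, ← std, h4]
    exact sum_mem fun j _ => Submodule.smul_mem _ _ (Submodule.subset_span ⟨j, rfl⟩)
  · rw [loc]
    refine ⟨fun ⟨W, hW, a, h1⟩ => ⟨trivial, fun j => ?_⟩, fun h1 => ?_⟩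
    · obtain ⟨c, hc⟩ := crd D.η a
      rw [← h1]
      exact (D.ev_range _ _ _).1 ⟨c j, (congrFun (key W _ a _ _ _ (g D.η (D.gen hW)) c hc) j).symm⟩
        x ⟨hW, h⟩
    · obtain ⟨W, -, h3, h4⟩ := D.real w
      obtain ⟨c, h5⟩ := h4 (W ⊓ U D.η) inf_le_left (D.gen ⟨h3 x h1.2, h⟩)
      exact ⟨W ⊓ U D.η, ⟨h3 x h1.2, h⟩, _, (std (Opens.infLERight _ _) _ c).trans (funext h5)⟩
  · exact ⟨fun ⟨a, h1⟩ x hx => (Lat.mk'_S ..).ge ((loc x w).2 ⟨W, hx, a, h1⟩),
      fun H => D.glue res inj h fun x hx => (loc x w).1 ((Lat.mk'_S ..).le (H x hx))⟩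

/-- The structure sheaf. -/
def repO : Rep D (strSheaf C) (line (1 : Fin 1 → K) 0) where
  ι U h := ⟨⟨fun a _ => D.ev U h a, funext fun _ => map_zero _⟩,
    fun a b => funext fun _ => map_add _ a b⟩
  res i hU hW a := funext fun _ => D.ev_res i hU hW a
  inj U h _ _ e := D.ev_inj U h (congrFun e 0)
  smul U h c a := funext fun _ => map_mul (D.ev U h) c a
  range U h w := by
    refine (exists_congr fun a => ⟨fun e => congrFun e 0, fun e => funext fun i =>
      Subsingleton.elim 0 i ▸ e⟩).trans ((D.ev_range U h (w 0)).trans ?_)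
    simp only [mem_line_one, Finsupp.coe_zero, Pi.zero_apply, WithZero.exp_zero, Place.mem_iff]

end Dict

namespace Rep

variable {D} {E L : C.Modules} {V : Lat K r} (R : Rep D E V)

lemma ext {U : C.Opens} {a b : Γ(E, U)} (H : ∀ h, R.ι U h a = R.ι U h b) : a = b := by
  by_cases h : D.η ∈ U
  exacts [R.inj U h (H h), D.sub E h a b]

variable [Algebra (RatFunc ℂ) K] [IsScalarTower ℂ (RatFunc ℂ) K] [FiniteDimensional (RatFunc ℂ) K]

include R in
theorem isBundle (hV : V.gen = ⊤) : IsBundle E r := fun y => by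
  obtain ⟨x, -, hx⟩ := D.near (U := ⊤) (y := y) trivial
  obtain ⟨b, h1, h2, h3, h4⟩ := exists_frame hV x
  obtain ⟨U, h5, h6⟩ := D.exists_open h4
  simp only [Set.mem_ofPred_eq, not_not] at h6
  choose e he using fun j => (R.range U h5 (b j)).2 fun x' hx' =>
    (h6 x').1 hx' ▸ Submodule.subset_span ⟨j, rfl⟩
  refine ⟨U, hx U ((h6 x).2 h3), e, fun W i => ?_⟩
  have h7 : ∀ h (a : Fin r → Γ(C, W)), R.ι W h (∑ j, a j • E.presheaf.map i.op (e j)) =
      ∑ j, D.ev W h (a j) • b j := fun h a => by simp only [map_sum, R.smul, R.res i h5, he]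
  have h8 := Fintype.linearIndependent_iffₛ.1 h1
  by_cases h : D.η ∈ W
  · refine ⟨fun a a' H => funext fun j => D.ev_inj W h (h8 _ _
      ((h7 h a).symm.trans ((congrArg _ H).trans (h7 h a'))) j), fun t => ?_⟩
    obtain ⟨c, hc⟩ := (Submodule.mem_span_range_iff_exists_fun K).1 (h2.ge (Submodule.mem_top
      (x := R.ι W h t)))
    choose a ha using fun j => (D.ev_range W h (c j)).2 fun x' hx' => by
      obtain ⟨c', h9, h10⟩ := mem_span_O.1
        ((h6 x').1 (i.le hx') ▸ (R.range W h _).1 ⟨t, rfl⟩ x' hx')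
      exact h8 _ _ (hc.trans h10) j ▸ h9 j
    exact ⟨a, R.inj W h ((h7 h a).trans (by simp only [ha, hc]))⟩
  · exact ⟨fun a a' _ => funext fun j => D.sub (strSheaf C) h _ _, fun t => ⟨0, D.sub E h _ _⟩⟩

variable {A : Place K →₀ ℤ} (R' : Rep D L (line (1 : Fin 1 → K) A))

include R R' in
theorem exists_mono {w : Fin r → K} (hw : w ≠ 0) (hle : line w A ≤ V) : ∃ φ : L ⟶ E, Mono φ := by
  have h1 (U : C.Opens) (a : Γ(L, U)) : ∃ b : Γ(E, U), ∀ h, R.ι U h b = R'.ι U h a 0 • w := by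
    by_cases h : D.η ∈ U
    · obtain ⟨b, hb⟩ := (R.range U h (R'.ι U h a 0 • w)).2 fun x hx => hle x
        ((smul_mem_line hw).2 (mem_line_one.1 ((R'.range U h _).1 ⟨a, rfl⟩ x hx)))
      exact ⟨b, fun _ => hb⟩
    · exact ⟨0, fun h' => absurd h' h⟩
  choose f hf using h1
  have h2 (U : C.Opens) (a b : Γ(L, U)) : f U (a + b) = f U a + f U b := R.ext fun h => by
    simp only [hf, map_add, Pi.add_apply, add_smul]
  let φ : L.presheaf ⟶ E.presheaf :=
    ⟨fun U => AddCommGrpCat.ofHom (.mk' (f U.unop) (h2 _)), fun U W i => by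
        ext a
        exact R.ext fun h => (hf _ _ h).trans (((congrArg (· 0 • w) (R'.res i.unop (i.unop.le h) h
          a)).trans (hf _ _ _).symm).trans (R.res i.unop _ h _).symm)⟩
  refine ⟨⟨PresheafOfModules.homMk φ fun U c a => R.ext fun h => ?_⟩,
    ⟨fun g g' e => Scheme.Modules.hom_ext _ _ fun U => ?_⟩⟩
  · exact (hf _ _ h).trans (((congrArg (· 0 • w) (R'.smul _ h c a)).trans (mul_smul _ _ _)).trans
      ((R.smul _ h c _).trans (congrArg _ (hf _ _ h))).symm)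
  · ext a
    refine R'.ext fun h => funext fun j => Subsingleton.elim 0 j ▸ smul_left_injective K hw ?_
    exact (hf _ _ h).symm.trans ((congrArg (R.ι U h) congr(($e).app U a)).trans (hf _ _ h))

include R R' in
theorem of_mono (φ : L ⟶ E) [Mono φ] : ∃ w, w ≠ 0 ∧ line w A ≤ V := by
  have h0 : ∀ U, Function.Injective (φ.app U) := fun U =>
    (AddCommGrpCat.mono_iff_injective _).1 ((NatTrans.mono_iff_mono_app _).1
      ((Scheme.Modules.toPresheaf C).map_mono φ) (op U))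
  have nat : ∀ {U W : C.Opens} (i : W ⟶ U) a,
      φ.app W (L.presheaf.map i.op a) = E.presheaf.map i.op (φ.app U a) :=
    fun i a => congr($(φ.mapPresheaf.naturality i.op) a)
  obtain ⟨U₀, h1, h2⟩ := D.exists_open A.finite_support
  obtain ⟨a₀, h3⟩ := (R'.range U₀ h1 1).2 fun x hx => mem_line_one.2 <| by
    rw [Function.notMem_support.1 ((h2 x).1 hx)]
    simp
  refine ⟨R.ι U₀ h1 (φ.app U₀ a₀), fun h => ?_, fun x v hv => ?_⟩
  · rw [h0 U₀ ((R.inj U₀ h1 (h.trans (map_zero _).symm)).trans (map_zero _).symm), map_zero] at h3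
    exact one_ne_zero h3.symm
  · obtain ⟨z, hz, rfl⟩ := mem_line.1 hv
    obtain ⟨U, h4, h5⟩ := D.exists_open (T := {y | (fun _ => z) ∉ (line (1 : Fin 1 → K) A).S y})
      ((A.finite_support.union (finite_poles z)).subset fun y hy => by
        by_contra h
        simp only [Set.mem_union, Function.mem_support, Set.mem_ofPred_eq, not_or, not_not] at h
        exact hy (mem_line_one.2 (by simpa [h.1] using y.mem_iff.1 h.2)))
    obtain ⟨a, ha⟩ := (R'.range U h4 fun _ => z).2 fun y hy => not_not.1 ((h5 y).1 hy)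
    obtain ⟨W, h6, -, h7⟩ := D.real fun _ : Fin 1 => z
    have h8 : D.η ∈ W ⊓ (U ⊓ U₀) := ⟨h6, h4, h1⟩
    obtain ⟨c, hc⟩ := h7 _ inf_le_left h8
    let i : W ⊓ (U ⊓ U₀) ⟶ U := homOfLE (inf_le_right.trans inf_le_left)
    let i₀ : W ⊓ (U ⊓ U₀) ⟶ U₀ := homOfLE (inf_le_right.trans inf_le_right)
    have h9 : L.presheaf.map i.op a = c 0 • L.presheaf.map i₀.op a₀ := R'.inj _ h8 <| by
      rw [R'.smul, R'.res i h4, R'.res i₀ h1, ha, h3, hc]
      exact funext fun _ => (mul_one z).symm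
    refine (R.range U h4 _).1 ⟨φ.app U a, ?_⟩ x ((h5 x).2 (not_not.2 (mem_line_one.2 hz)))
    rw [← R.res i h4 h8, ← nat, h9, Scheme.Modules.Hom.app_smul, R.smul, nat, R.res i₀ h1, hc]

end Rep

end Pool.Agent.Lib.CL88
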